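import Pool.Agent.Helper57_K9.Stmts
import Pool.Agent.Helper25_KF.Idm
import Pool.Agent.Helper25_K9.ADA
import Pool.Agent.Helper65_ML.Grp

/-!
# Squad K9, row AZR: `A_χ(p)` vanishes outside the block
-/

open scoped BigOperators

noncomputable section

namespace Pool.Agent.PP.K9.H65

open Pool.Agent.Helper51_AWC Pool.Agent.Helper79_WRA Pool.Agent.PP Pool.Agent.PP.KF
  Pool.Agent.PP.K9

attribute [local instance] Ideal.Quotient.field

variable {M : Ideal (integralClosure ℤ ℂ)} [M.IsMaximal]

/-- The lifted idempotent acts as the identity on the conjugates of the class functions of the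
block. -/
theorem eh_act {C : Type} [Group C] [Fintype C] (b : C → FF M) {q : C → ℂ}
    (hq : q ∈ Submodule.span ℂ (IrrE M b)) (t : C) :
    ∑ c, eh M b c * starRingEnd ℂ (q (t * c⁻¹)) = starRingEnd ℂ (q t) := by
  induction hq using Submodule.span_induction with
  | mem θ hθ =>
    have hI : θ ∈ Irr C := hθ.1
    have h1 := H50.eigen (H25.eh_cl (M := M) b) hI t⁻¹
    rw [(H25.eh_om (M := M) b hI).1 hθ, one_mul] at h1
    rw [H94.irr_star hI, ← h1]
    refine Finset.sum_congr rfl fun c _ => ?_
    rw [H94.irr_star hI]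
    have e : (t * c⁻¹)⁻¹ = c * t⁻¹ := by group
    rw [e]
  | zero => simp
  | add f g _ _ hf hg =>
    simp only [Pi.add_apply, map_add, mul_add, Finset.sum_add_distrib]
    rw [hf, hg]
  | smul a f _ hf =>
    simp only [Pi.smul_apply, smul_eq_mul, map_mul]
    rw [← hf, Finset.mul_sum]
    refine Finset.sum_congr rfl fun c _ => ?_
    ring

/-- Row AZR. -/
theorem azr (rot : RotStmt) (sm2 : Sm2Stmt) (psi : PsiStmt) : AzrStmt := by
  intro ℓ _ M _ hl G H _ _ _ _ u π hπ e he b hb heb p hp hRc w hw hw1 χ hχ hχe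
  classical
  have := Fintype.ofFinite (Cu u)
  have hℓ : ℓ.Prime := Fact.out
  -- the pull-back of `p`
  have hpull : (fun c : Cu u => p (π c)) ∈ Submodule.span ℂ (IrrE M b) := by
    have hset := (psi M (Cu u) H π hπ.sur b hb.1).1
    rw [hset] at hp
    clear hRc
    induction hp using Submodule.span_induction with
    | mem θ hθ => exact Submodule.subset_span hθ.2
    | zero => exact Submodule.zero_mem _
    | add f g _ _ hf hg => exact Submodule.add_mem _ hf hg
    | smul a f _ hf => exact Submodule.smul_mem _ a hf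
  obtain ⟨q, hq⟩ : ∃ q : Cu u → ℂ, q = fun g => if Reg ℓ g then p (π g) else 0 := ⟨_, rfl⟩
  have hqs : q ∈ Submodule.span ℂ (IrrE M b) := by
    rw [hq]
    exact (rot ℓ M hl (Cu u) b hb).1 _ hpull
  -- the value
  have hval : ∀ s : Cu u, Reg ℓ s → gbv (Cu u) (w * s) (eh M b) χ = 0 := by
    intro s hs
    have hsu : (s : G) * u = u * s := Subgroup.mem_centralizer_singleton_iff.1 s.2
    obtain ⟨j, hj⟩ := Subgroup.mem_zpowers_iff.1 hw
    have hcw : Commute w (s : G) := by
      rw [← hj]
      exact (show Commute u (s : G) from hsu.symm).zpow_left j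
    have hwℓ : w ^ (ℓ ^ 1) = 1 := by
      rw [pow_one, ← hj, ← zpow_natCast, ← zpow_mul, mul_comm, zpow_mul, zpow_natCast,
        ← hπ.ord, pow_orderOf_eq_one, one_zpow]
    have hsm : (s : G) ^ (orderOf s) = 1 := by
      have := pow_orderOf_eq_one s
      exact_mod_cast congrArg Subtype.val this
    have hmℓ : ¬ ℓ ∣ orderOf s := by
      have h1 : (orderOf s).Coprime ℓ := hs
      exact (Nat.Prime.coprime_iff_not_dvd hℓ).1 h1.symm
    obtain ⟨k, k', hk, hk'⟩ := Pool.Agent.PP.ML.H65.powers (ℓ := ℓ) hcw hwℓ hsm hmℓ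
    have hwg : w ∈ Subgroup.zpowers (w * (s : G)) := by
      have h1 : (w * (s : G)) ^ k ∈ Subgroup.zpowers (w * (s : G)) :=
        Subgroup.pow_mem _ (Subgroup.mem_zpowers _) k
      rwa [hk] at h1
    have huw : u ∈ Subgroup.zpowers w := by
      -- `⟨u⟩` has prime order
      have hcard : Nat.card (Subgroup.zpowers u) = ℓ := by
        rw [Nat.card_zpowers, hπ.ord]
      have hwle : Subgroup.zpowers w ≤ Subgroup.zpowers u := Subgroup.zpowers_le.2 hw
      have hd := Subgroup.card_dvd_of_le hwle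
      rw [hcard] at hd
      rcases (Nat.dvd_prime hℓ).1 hd with h1 | h1
      · exfalso
        apply hw1
        have h2 : Subgroup.zpowers w = ⊥ := Subgroup.card_eq_one.1 h1
        rwa [Subgroup.zpowers_eq_bot] at h2
      · have h2 : Subgroup.zpowers w = Subgroup.zpowers u :=
          Subgroup.eq_of_le_of_card_ge hwle (by rw [hcard, h1])
        rw [h2]
        exact Subgroup.mem_zpowers u
    have hug : u ∈ Subgroup.zpowers (w * (s : G)) :=
      (Subgroup.zpowers_le.2 hwg) huw
    have hgC : w * (s : G) ∈ Cu u := by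
      refine (Cu u).mul_mem ?_ s.2
      rw [Subgroup.mem_centralizer_singleton_iff, ← hj]
      exact ((Commute.refl u).zpow_left j).eq
    exact (sm2 ℓ M hl G u hπ.ord _ hgC hug b hb e he).1 heb χ hχ hχe
  -- the sum
  have hsum : ∑ s : Cu u, starRingEnd ℂ (q s) * χ (w * s) = 0 := by
    have h1 : ∀ s : Cu u, starRingEnd ℂ (q s) * χ (w * s) =
        ∑ c : Cu u, eh M b c * starRingEnd ℂ (q (s * c⁻¹)) * χ (w * s) := by
      intro s
      rw [← Finset.sum_mul, eh_act b hqs]
    rw [Finset.sum_congr rfl fun s _ => h1 s, Finset.sum_comm]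
    have h2 : ∀ c : Cu u, ∑ s : Cu u, eh M b c * starRingEnd ℂ (q (s * c⁻¹)) * χ (w * s) =
        ∑ s : Cu u, starRingEnd ℂ (q s) * (eh M b c * χ (w * s * c)) := by
      intro c
      rw [← Equiv.sum_comp (Equiv.mulRight c)
        (fun s : Cu u => eh M b c * starRingEnd ℂ (q (s * c⁻¹)) * χ (w * s))]
      refine Finset.sum_congr rfl fun s _ => ?_
      rw [Equiv.coe_mulRight, mul_inv_cancel_right, Subgroup.coe_mul, ← mul_assoc w]
      ring
    rw [Finset.sum_congr rfl fun c _ => h2 c, Finset.sum_comm]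
    refine Finset.sum_eq_zero fun s _ => ?_
    rw [← Finset.mul_sum]
    by_cases hs : Reg ℓ s
    · have h3 := hval s hs
      rw [gbv, finsum_eq_sum_of_fintype] at h3
      rw [h3, mul_zero]
    · have h3 : q s = 0 := by
        rw [hq]
        exact if_neg hs
      rw [h3, map_zero, zero_mul]
  unfold Av
  rw [finsum_eq_sum_of_fintype]
  have h4 : ∀ s : Cu u, (∑ᶠ (_ : Reg ℓ s), χ (w * s) * starRingEnd ℂ (p (π s))) =
      starRingEnd ℂ (q s) * χ (w * s) := by
    intro s
    rw [finsum_eq_if, hq]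
    by_cases hs : Reg ℓ s
    · simp only [if_pos hs]
      ring
    · simp only [if_neg hs]
      rw [map_zero, zero_mul]
  rw [Finset.sum_congr rfl fun s _ => h4 s, hsum, mul_zero]

end Pool.Agent.PP.K9.H65
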