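import Pool.Agent.Helper57_K9.Stmts3

/-!
# Squad KL, row GAL: the conjugates of a nonzero element of `ℤ[ζ]`
-/

open scoped BigOperators

noncomputable section

namespace Pool.Agent.PP.K9.H65g

open Pool.Agent.PP.K9

theorem geom_zero {η : ℂ} {ℓ : ℕ} (h1 : η ≠ 1) (h : η ^ ℓ = 1) :
    ∑ j ∈ Finset.range ℓ, η ^ j = 0 := by
  have h2 := mul_geom_sum η ℓ
  rw [h, sub_self] at h2
  rcases mul_eq_zero.1 h2 with h3 | h3
  · exact absurd (sub_eq_zero.1 h3) h1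
  · exact h3

theorem conj_root {ζ : ℂ} {ℓ : ℕ} (hl : 0 < ℓ) (hζ : IsPrimitiveRoot ζ ℓ) :
    ζ * starRingEnd ℂ ζ = 1 := by
  have h1 : ‖ζ‖ = 1 := hζ.norm'_eq_one hl.ne'
  rw [Complex.mul_conj, Complex.normSq_eq_norm_sq, h1]
  norm_num

/-- Parseval. -/
theorem parseval {ζ : ℂ} {ℓ : ℕ} (hl : 0 < ℓ) (hζ : IsPrimitiveRoot ζ ℓ) (n : ℕ → ℤ) :
    ∑ j ∈ Finset.range ℓ, Complex.normSq (∑ i ∈ Finset.range ℓ, (n i : ℂ) * ζ ^ (i * j)) =
      ℓ * ∑ i ∈ Finset.range ℓ, (n i : ℝ) ^ 2 := by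
  have hcj := conj_root hl hζ
  have key : ∀ i ∈ Finset.range ℓ, ∀ i' ∈ Finset.range ℓ,
      ∑ j ∈ Finset.range ℓ, ζ ^ (i * j) * (starRingEnd ℂ ζ) ^ (i' * j) =
        if i' = i then (ℓ : ℂ) else 0 := by
    intro i hi i' hi'
    have e : ∀ j ∈ Finset.range ℓ, ζ ^ (i * j) * (starRingEnd ℂ ζ) ^ (i' * j) =
        (ζ ^ i * (starRingEnd ℂ ζ) ^ i') ^ j := by
      intro j _
      rw [mul_pow, ← pow_mul, ← pow_mul]
    rw [Finset.sum_congr rfl e]
    by_cases h : i' = i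
    · rw [if_pos h, h, ← mul_pow, hcj, one_pow]
      simp
    · rw [if_neg h]
      apply geom_zero
      · intro h1
        apply h
        have h2 : ζ ^ i = ζ ^ i' := by
          calc ζ ^ i = ζ ^ i * (starRingEnd ℂ ζ) ^ i' * ζ ^ i' := by
                rw [mul_assoc, ← mul_pow, mul_comm (starRingEnd ℂ ζ) ζ, hcj, one_pow, mul_one]
            _ = ζ ^ i' := by rw [h1, one_mul]
        exact (hζ.pow_inj (Finset.mem_range.1 hi) (Finset.mem_range.1 hi') h2).symm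
      · have h3 : (starRingEnd ℂ ζ) ^ ℓ = 1 := by
          rw [← map_pow, hζ.pow_eq_one, map_one]
        rw [mul_pow, ← pow_mul, ← pow_mul, mul_comm i, mul_comm i', pow_mul, pow_mul,
          hζ.pow_eq_one, h3, one_pow, one_pow, one_mul]
  have hC : ((∑ j ∈ Finset.range ℓ, Complex.normSq (∑ i ∈ Finset.range ℓ,
      (n i : ℂ) * ζ ^ (i * j)) : ℝ) : ℂ) = ((ℓ * ∑ i ∈ Finset.range ℓ, (n i : ℝ) ^ 2 : ℝ) : ℂ) := by
    rw [Complex.ofReal_sum]
    have e1 : ∀ j ∈ Finset.range ℓ, ((Complex.normSq (∑ i ∈ Finset.range ℓ,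
        (n i : ℂ) * ζ ^ (i * j)) : ℝ) : ℂ) = ∑ i ∈ Finset.range ℓ, ∑ i' ∈ Finset.range ℓ,
          (n i : ℂ) * (n i' : ℂ) * (ζ ^ (i * j) * (starRingEnd ℂ ζ) ^ (i' * j)) := by
      intro j _
      rw [← Complex.mul_conj, map_sum, Finset.sum_mul_sum]
      refine Finset.sum_congr rfl fun i _ => Finset.sum_congr rfl fun i' _ => ?_
      rw [map_mul, map_pow, map_intCast]
      ring
    rw [Finset.sum_congr rfl e1, Finset.sum_comm]
    have e2 : ∀ i ∈ Finset.range ℓ, ∑ j ∈ Finset.range ℓ, ∑ i' ∈ Finset.range ℓ,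
        (n i : ℂ) * (n i' : ℂ) * (ζ ^ (i * j) * (starRingEnd ℂ ζ) ^ (i' * j)) =
        (ℓ : ℂ) * (n i : ℂ) ^ 2 := by
      intro i hi
      rw [Finset.sum_comm]
      have e3 : ∀ i' ∈ Finset.range ℓ, ∑ j ∈ Finset.range ℓ,
          (n i : ℂ) * (n i' : ℂ) * (ζ ^ (i * j) * (starRingEnd ℂ ζ) ^ (i' * j)) =
          if i' = i then (ℓ : ℂ) * (n i : ℂ) ^ 2 else 0 := by
        intro i' hi'
        rw [← Finset.mul_sum, key i hi i' hi']
        by_cases h : i' = i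
        · rw [if_pos h, if_pos h, h]
          ring
        · rw [if_neg h, if_neg h, mul_zero]
      rw [Finset.sum_congr rfl e3, Finset.sum_ite_eq' (Finset.range ℓ) i, if_pos hi]
    rw [Finset.sum_congr rfl e2, ← Finset.mul_sum]
    push_cast
    ring
  exact_mod_cast hC

/-- Row GAL. -/
theorem gal : GalStmt := by
  intro ℓ _ ζ hζ m hm
  have hp : ℓ.Prime := Fact.out
  have hl := hp.pos
  have h2 := hp.two_le
  obtain ⟨n, hn⟩ : ∃ n : ℕ → ℤ, n = fun i => m i - m 0 := ⟨_, rfl⟩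
  have hni : ∀ i, n i = m i - m 0 := fun i => by rw [hn]
  -- the values do not change
  have hval : ∀ j ∈ Finset.Ico 1 ℓ, ∑ i ∈ Finset.range ℓ, (m i : ℂ) * ζ ^ (i * j) =
      ∑ i ∈ Finset.range ℓ, (n i : ℂ) * ζ ^ (i * j) := by
    intro j hj
    rw [Finset.mem_Ico] at hj
    have h3 : ∑ i ∈ Finset.range ℓ, ζ ^ (i * j) = 0 := by
      have e : ∀ i ∈ Finset.range ℓ, ζ ^ (i * j) = (ζ ^ j) ^ i := by
        intro i _
        rw [← pow_mul, mul_comm]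
      rw [Finset.sum_congr rfl e]
      apply geom_zero
      · exact hζ.pow_ne_one_of_pos_of_lt (by omega) hj.2
      · rw [← pow_mul, mul_comm, pow_mul, hζ.pow_eq_one, one_pow]
    have h4 : ∑ i ∈ Finset.range ℓ, (n i : ℂ) * ζ ^ (i * j) =
        ∑ i ∈ Finset.range ℓ, (m i : ℂ) * ζ ^ (i * j) -
          (m 0 : ℂ) * ∑ i ∈ Finset.range ℓ, ζ ^ (i * j) := by
      rw [Finset.mul_sum, ← Finset.sum_sub_distrib]
      refine Finset.sum_congr rfl fun i _ => ?_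
      rw [hni]
      push_cast
      ring
    rw [h4, h3, mul_zero, sub_zero]
  -- the support
  obtain ⟨T, hT⟩ : ∃ T : Finset ℕ, T = (Finset.range ℓ).filter (fun i => n i ≠ 0) := ⟨_, rfl⟩
  have hTm : ∀ i, i ∈ T ↔ i < ℓ ∧ n i ≠ 0 := by
    intro i
    rw [hT, Finset.mem_filter, Finset.mem_range]
  have hT1 : 1 ≤ T.card := by
    rw [Nat.one_le_iff_ne_zero, Finset.card_ne_zero]
    by_contra hcon
    rw [Finset.not_nonempty_iff_eq_empty] at hcon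
    apply hm
    have h3 := hval 1 (Finset.mem_Ico.2 ⟨le_rfl, by omega⟩)
    simp only [mul_one] at h3
    rw [h3]
    refine Finset.sum_eq_zero fun i hi => ?_
    have h4 : n i = 0 := by
      by_contra h5
      have : i ∈ T := (hTm i).2 ⟨Finset.mem_range.1 hi, h5⟩
      rw [hcon] at this
      exact absurd this (Finset.notMem_empty i)
    rw [h4]
    simp
  have hT2 : T.card ≤ ℓ - 1 := by
    have h3 : T ⊆ (Finset.range ℓ).erase 0 := by
      intro i hi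
      have h4 := (hTm i).1 hi
      rw [Finset.mem_erase, Finset.mem_range]
      refine ⟨?_, h4.1⟩
      intro h5
      apply h4.2
      rw [h5, hni, sub_self]
    have h4 := Finset.card_le_card h3
    rwa [Finset.card_erase_of_mem (Finset.mem_range.2 hl), Finset.card_range] at h4
  have hsum1 : ∑ i ∈ Finset.range ℓ, (n i : ℝ) = ∑ i ∈ T, (n i : ℝ) := by
    rw [hT, Finset.sum_filter]
    refine Finset.sum_congr rfl fun i _ => ?_
    by_cases h : n i ≠ 0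
    · rw [if_pos h]
    · rw [if_neg h, not_not.1 h, Int.cast_zero]
  have hsum2 : ∑ i ∈ Finset.range ℓ, (n i : ℝ) ^ 2 = ∑ i ∈ T, (n i : ℝ) ^ 2 := by
    rw [hT, Finset.sum_filter]
    refine Finset.sum_congr rfl fun i _ => ?_
    by_cases h : n i ≠ 0
    · rw [if_pos h]
    · rw [if_neg h, not_not.1 h, Int.cast_zero]
      norm_num
  have hcs : (∑ i ∈ T, (n i : ℝ)) ^ 2 ≤ (T.card : ℝ) * ∑ i ∈ T, (n i : ℝ) ^ 2 :=
    sq_sum_le_card_mul_sum_sq
  have hge : (T.card : ℝ) ≤ ∑ i ∈ T, (n i : ℝ) ^ 2 := by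
    have h3 : ∀ i ∈ T, (1 : ℝ) ≤ (n i : ℝ) ^ 2 := by
      intro i hi
      have h4 : 1 ≤ |n i| := Int.one_le_abs ((hTm i).1 hi).2
      have h5 : (1 : ℝ) ≤ |(n i : ℝ)| := by exact_mod_cast h4
      rw [← sq_abs]
      nlinarith
    calc (T.card : ℝ) = ∑ _i ∈ T, (1 : ℝ) := by simp
      _ ≤ _ := Finset.sum_le_sum h3
  -- Parseval
  have hP := parseval hl hζ n
  have hsplit : ∑ j ∈ Finset.range ℓ,
      Complex.normSq (∑ i ∈ Finset.range ℓ, (n i : ℂ) * ζ ^ (i * j)) =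
      Complex.normSq (∑ i ∈ Finset.range ℓ, (n i : ℂ) * ζ ^ (i * 0)) +
      ∑ j ∈ Finset.Ico 1 ℓ,
        Complex.normSq (∑ i ∈ Finset.range ℓ, (n i : ℂ) * ζ ^ (i * j)) := by
    rw [Finset.range_eq_Ico, Finset.sum_eq_sum_Ico_succ_bot hl]
  have h0 : Complex.normSq (∑ i ∈ Finset.range ℓ, (n i : ℂ) * ζ ^ (i * 0)) =
      (∑ i ∈ T, (n i : ℝ)) ^ 2 := by
    have e : ∑ i ∈ Finset.range ℓ, (n i : ℂ) * ζ ^ (i * 0) =
        ((∑ i ∈ Finset.range ℓ, (n i : ℝ) : ℝ) : ℂ) := by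
      rw [Complex.ofReal_sum]
      refine Finset.sum_congr rfl fun i _ => ?_
      rw [mul_zero, pow_zero, mul_one]
      push_cast
      rfl
    rw [e, Complex.normSq_ofReal, hsum1]
    ring
  have hgoal : ∑ j ∈ Finset.Ico 1 ℓ,
      Complex.normSq (∑ i ∈ Finset.range ℓ, (m i : ℂ) * ζ ^ (i * j)) =
      ∑ j ∈ Finset.Ico 1 ℓ,
        Complex.normSq (∑ i ∈ Finset.range ℓ, (n i : ℂ) * ζ ^ (i * j)) :=
    Finset.sum_congr rfl fun j hj => by rw [hval j hj]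
  rw [hgoal]
  rw [hsplit, h0, hsum2] at hP
  have hb1 : (1 : ℝ) ≤ T.card := by exact_mod_cast hT1
  have hb2 : (T.card : ℝ) ≤ ℓ - 1 := by
    have : T.card + 1 ≤ ℓ := by omega
    have h3 : ((T.card + 1 : ℕ) : ℝ) ≤ ℓ := by exact_mod_cast this
    push_cast at h3
    linarith
  obtain ⟨Q, hQ⟩ : ∃ Q : ℝ, Q = ∑ i ∈ T, (n i : ℝ) ^ 2 := ⟨_, rfl⟩
  rw [← hQ] at hP hge hcs
  have h5 : ((ℓ : ℝ) - T.card) * T.card ≤ ((ℓ : ℝ) - T.card) * Q :=
    mul_le_mul_of_nonneg_left hge (by linarith)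
  nlinarith

end Pool.Agent.PP.K9.H65g
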